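import Pool.Agent.TH462.SC.Stm

set_option autoImplicit false
set_option linter.unusedSectionVars false
set_option linter.unusedVariables false

/-! # Gadgets keep tree decompositions -/

namespace Pool.Agent.TH45.SC4

open Finset
open Pool.Agent.Helper347.Sab (MGraph dg IsCircuit IsCubic IsCDC)
open Pool.Agent.H444.FA (ext inE inG gPar gTree gClaw gEdge)
open Pool.Agent.H10R3.SC (cut ins tou Cr)
open Pool.Agent.TH499.TF (Joins Ad HasTD Grow Closed phi pw lp)
open Pool.Agent.TH462.SC

section

variable {V E : Type} [Fintype V] [DecidableEq V] [Fintype E] [DecidableEq E]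

omit [Fintype V] [DecidableEq V] [Fintype E] [DecidableEq E] in
theorem td_swap {w : ℕ} {src dst src' dst' : E → V}
    (h : ∀ d, (src' d = src d ∧ dst' d = dst d) ∨ (src' d = dst d ∧ dst' d = src d))
    (hTD : HasTD w src dst) : HasTD w src' dst' := by
  obtain ⟨n, par, B, h0, h1, h2, h4⟩ := hTD
  refine ⟨n, par, B, h0, fun e => ?_, h2, h4⟩
  obtain ⟨i, hi, a, b⟩ := h1 e
  rcases h e with ⟨h5, h6⟩ | ⟨h5, h6⟩
  · exact ⟨i, hi, by rw [h5]; exact a, by rw [h6]; exact b⟩
  · exact ⟨i, hi, by rw [h5]; exact b, by rw [h6]; exact a⟩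

theorem td_con {w : ℕ} {src dst : E → V} (u v : V) (e : E) (hTD : HasTD w src dst) (hne : u ≠ v)
    (hj : Joins src dst e u v) : HasTD w (phi u v ∘ src) (phi u v ∘ dst) := by
  rcases hj with ⟨h1, h2⟩ | ⟨h1, h2⟩
  · have h3 := hTD.contract src dst e (by rw [h1, h2]; exact hne)
    rw [h1, h2] at h3
    exact h3
  · let src' : E → V := fun d => if d = e then dst d else src d
    let dst' : E → V := fun d => if d = e then src d else dst d
    have hs : ∀ d, (src' d = src d ∧ dst' d = dst d) ∨ (src' d = dst d ∧ dst' d = src d) := by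
      intro d
      by_cases hd : d = e
      · exact Or.inr ⟨if_pos hd, if_pos hd⟩
      · exact Or.inl ⟨if_neg hd, if_neg hd⟩
    have h3 : src' e = u := by
      change (if e = e then dst e else src e) = u
      rw [if_pos rfl, h2]
    have h4 : dst' e = v := by
      change (if e = e then src e else dst e) = v
      rw [if_pos rfl, h1]
    have h5 := (td_swap hs hTD).contract src' dst' e (by rw [h3, h4]; exact hne)
    rw [h3, h4] at h5
    refine td_swap ?_ h5
    intro d
    rcases hs d with ⟨h6, h7⟩ | ⟨h6, h7⟩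
    · exact Or.inl ⟨by simp only [Function.comp, h6], by simp only [Function.comp, h7]⟩
    · exact Or.inr ⟨by simp only [Function.comp, h7], by simp only [Function.comp, h6]⟩

theorem td_closed (w : ℕ) : Closed (fun src dst : E → V => HasTD w src dst) :=
  ⟨fun _ _ u v e h hne hj => td_con u v e h hne hj, fun src dst D h => h.loop src dst D⟩

/-- a general way to find a decomposition of the part outside `X` with new edges -/
theorem twh_of (G : MGraph V E) (src dst : E → V) (hE : ∀ e, G.ends e = s(src e, dst e))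
    (X : Finset V) {a b : ℕ} (g : Fin b → Sym2 (V ⊕ Fin a)) (hg : ∀ j, ¬ (g j).IsDiag)
    (W F : Type) (s d : F → W) (φ : V ⊕ Fin a → W) (hTD : HasTD 5 s d)
    (hout : ∀ j v, Sum.inl v ∈ g j → v ∉ X)
    (hinj : ∀ u v, (∀ z, u = Sum.inl z → z ∉ X) → (∀ z, v = Sum.inl z → z ∉ X) →
      φ u = φ v → u = v)
    (hold : ∀ e, src e ∉ X → dst e ∉ X → ∃ f,
      (φ (Sum.inl (src e)) = s f ∨ φ (Sum.inl (src e)) = d f) ∧
      (φ (Sum.inl (dst e)) = s f ∨ φ (Sum.inl (dst e)) = d f))
    (hnew : ∀ j, ∃ f, ∀ u, u ∈ g j → φ u = s f ∨ φ u = d f) :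
    TWH (ext G g hg) (inG (ins G univ Xᶜ)) := by
  have hmi : ∀ e, (Sum.inl e : E ⊕ Fin b) ∈ (inG (ins G univ Xᶜ) : Finset (E ⊕ Fin b)) →
      src e ∉ X ∧ dst e ∉ X := by
    intro e he
    unfold inG inE at he
    simp only [mem_union, mem_map, Function.Embedding.coeFn_mk, mem_univ, true_and,
      Sum.inl.injEq, exists_eq_right, reduceCtorEq, exists_false, or_false] at he
    unfold ins at he
    have h2 := (mem_filter.1 he).2
    constructor
    · have := h2 (src e) (by rw [hE]; exact Sym2.mem_mk_left _ _)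
      exact mem_compl.1 this
    · have := h2 (dst e) (by rw [hE]; exact Sym2.mem_mk_right _ _)
      exact mem_compl.1 this
  have hends : ∀ e u, u ∈ (ext G g hg).ends (Sum.inl e) →
      u = Sum.inl (src e) ∨ u = Sum.inl (dst e) := by
    intro e u hu
    change u ∈ (G.ends e).map Sum.inl at hu
    rw [Sym2.mem_map] at hu
    obtain ⟨z, hz, rfl⟩ := hu
    rw [hE, Sym2.mem_iff] at hz
    rcases hz with rfl | rfl
    · exact Or.inl rfl
    · exact Or.inr rfl
  have hdeg : ∀ u, dg (ext G g hg) (inG (ins G univ Xᶜ)) u ≠ 0 → ∀ z, u = Sum.inl z → z ∉ X := by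
    intro u hu z hz
    unfold dg at hu
    obtain ⟨e, he⟩ := card_pos.1 (Nat.pos_of_ne_zero hu)
    rw [mem_filter] at he
    obtain ⟨he1, he2⟩ := he
    rw [hz] at he2
    rcases e with e | j
    · obtain ⟨h1, h2⟩ := hmi e he1
      rcases hends e _ he2 with h | h
      · rw [Sum.inl.inj h]; exact h1
      · rw [Sum.inl.inj h]; exact h2
    · exact hout j z he2
  refine ⟨W, F, s, d, φ, hTD, fun u v hu hv h => hinj u v (hdeg u hu) (hdeg v hv) h, ?_⟩
  intro e he
  rcases e with e | j
  · obtain ⟨h1, h2⟩ := hmi e he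
    obtain ⟨f, hf1, hf2⟩ := hold e h1 h2
    refine ⟨f, fun u hu => ?_⟩
    rcases hends e u hu with rfl | rfl
    · exact hf1
    · exact hf2
  · obtain ⟨f, hf⟩ := hnew j
    exact ⟨f, fun u hu => hf u hu⟩

theorem Cr_jn {G : MGraph V E} {src dst : E → V} (hE : ∀ e, G.ends e = s(src e, dst e))
    {X : Finset V} {n : ℕ} {y x : Fin n → V} {ℓ : Fin n → E} (h : Cr G X y x ℓ) (j : Fin n) :
    Joins src dst (ℓ j) (y j) (x j) := by
  have h1 := h.ends j
  rw [hE, Sym2.eq_iff] at h1
  rcases h1 with ⟨h2, h3⟩ | ⟨h2, h3⟩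
  · exact Or.inl ⟨h2, h3⟩
  · exact Or.inr ⟨h2, h3⟩

end

theorem s6 : S6 := by
  intro V E _ _ _ _ G src dst hE hTD X hX
  obtain ⟨w, hw, hTw⟩ := (td_closed (V := V) (E := E) 5).grow hX hTD
  have hpo : ∀ v, v ∉ X → pw X w v = v := fun v hv => if_neg hv
  have hpi : ∀ v, v ∈ X → pw X w v = w := fun v hv => if_pos hv
  refine ⟨?_, ?_⟩
  · intro y x ℓ hC hg
    have hnw : ∀ j : Fin 3, ∀ u : V ⊕ Fin 1, u = Sum.inl (x j) ∨ u = Sum.inr 0 →
        Sum.elim id (fun _ => w) u = (pw X w ∘ src) (ℓ j) ∨
        Sum.elim id (fun _ => w) u = (pw X w ∘ dst) (ℓ j) := by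
      intro j u hu
      have hxj := hpo _ (hC.xout j)
      have hyj := hpi _ (hC.yin j)
      rcases Cr_jn hE hC j with ⟨h1, h2⟩ | ⟨h1, h2⟩
      · rcases hu with rfl | rfl
        · right
          change x j = pw X w (dst (ℓ j))
          rw [h2, hxj]
        · left
          change w = pw X w (src (ℓ j))
          rw [h1, hyj]
      · rcases hu with rfl | rfl
        · left
          change x j = pw X w (src (ℓ j))
          rw [h1, hxj]
        · right
          change w = pw X w (dst (ℓ j))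
          rw [h2, hyj]
    refine twh_of G src dst hE X (gClaw x) hg V E (pw X w ∘ src) (pw X w ∘ dst)
      (Sum.elim id (fun _ => w)) hTw ?_ ?_ ?_ ?_
    · intro j v hv
      fin_cases j
      · change Sum.inl v ∈ s(Sum.inl (x 0), Sum.inr 0) at hv
        rw [Sym2.mem_iff] at hv
        rcases hv with h | h
        · rw [Sum.inl.inj h]; exact hC.xout 0
        · simp at h
      · change Sum.inl v ∈ s(Sum.inl (x 1), Sum.inr 0) at hv
        rw [Sym2.mem_iff] at hv
        rcases hv with h | h
        · rw [Sum.inl.inj h]; exact hC.xout 1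
        · simp at h
      · change Sum.inl v ∈ s(Sum.inl (x 2), Sum.inr 0) at hv
        rw [Sym2.mem_iff] at hv
        rcases hv with h | h
        · rw [Sum.inl.inj h]; exact hC.xout 2
        · simp at h
    · rintro (u | i) (v | i') hu hv huv
      · change u = v at huv
        rw [huv]
      · change u = w at huv
        exact absurd hw (huv ▸ hu u rfl)
      · change w = v at huv
        exact absurd hw (huv ▸ hv v rfl)
      · rw [Subsingleton.elim i i']
    · intro e h1 h2
      refine ⟨e, Or.inl ?_, Or.inr ?_⟩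
      · change src e = pw X w (src e)
        rw [hpo _ h1]
      · change dst e = pw X w (dst e)
        rw [hpo _ h2]
    · intro j
      fin_cases j
      · refine ⟨ℓ 0, fun u hu => hnw 0 u ?_⟩
        change u ∈ s(Sum.inl (x 0), Sum.inr 0) at hu
        rw [Sym2.mem_iff] at hu
        exact hu
      · refine ⟨ℓ 1, fun u hu => hnw 1 u ?_⟩
        change u ∈ s(Sum.inl (x 1), Sum.inr 0) at hu
        rw [Sym2.mem_iff] at hu
        exact hu
      · refine ⟨ℓ 2, fun u hu => hnw 2 u ?_⟩
        change u ∈ s(Sum.inl (x 2), Sum.inr 0) at hu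
        rw [Sym2.mem_iff] at hu
        exact hu
  · intro y x ℓ hC hg
    have hw0 : x 0 ≠ w := fun h => hC.xout 0 (h ▸ hw)
    have hj0 : Joins (pw X w ∘ src) (pw X w ∘ dst) (ℓ 0) (x 0) w := by
      have hxj := hpo _ (hC.xout 0)
      have hyj := hpi _ (hC.yin 0)
      rcases Cr_jn hE hC 0 with ⟨h1, h2⟩ | ⟨h1, h2⟩
      · right
        exact ⟨by change pw X w (src (ℓ 0)) = w; rw [h1, hyj],
          by change pw X w (dst (ℓ 0)) = x 0; rw [h2, hxj]⟩
      · left
        exact ⟨by change pw X w (src (ℓ 0)) = x 0; rw [h1, hxj],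
          by change pw X w (dst (ℓ 0)) = w; rw [h2, hyj]⟩
    have hT2 := td_con (x 0) w (ℓ 0) hTw hw0 hj0
    have hq : ∀ v, v ∉ X → phi (x 0) w (pw X w v) = v := by
      intro v hv
      rw [hpo v hv]
      exact if_neg fun (h : v = w) => hv (by rw [h]; exact hw)
    have hq1 : phi (x 0) w (pw X w (y 1)) = x 0 := by
      rw [hpi _ (hC.yin 1)]
      exact if_pos rfl
    refine twh_of G src dst hE X (gEdge x) hg V E (phi (x 0) w ∘ (pw X w ∘ src))
      (phi (x 0) w ∘ (pw X w ∘ dst)) (Sum.elim id Fin.elim0) hT2 ?_ ?_ ?_ ?_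
    · intro j v hv
      fin_cases j
      change Sum.inl v ∈ s(Sum.inl (x 0), Sum.inl (x 1)) at hv
      rw [Sym2.mem_iff] at hv
      rcases hv with h | h
      · rw [Sum.inl.inj h]; exact hC.xout 0
      · rw [Sum.inl.inj h]; exact hC.xout 1
    · rintro (u | i) (v | i') hu hv huv
      · change u = v at huv
        rw [huv]
      · exact i'.elim0
      · exact i.elim0
      · exact i.elim0
    · intro e h1 h2
      refine ⟨e, Or.inl ?_, Or.inr ?_⟩
      · change src e = phi (x 0) w (pw X w (src e))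
        rw [hq _ h1]
      · change dst e = phi (x 0) w (pw X w (dst e))
        rw [hq _ h2]
    · intro j
      fin_cases j
      refine ⟨ℓ 1, fun u hu => ?_⟩
      change u ∈ s(Sum.inl (x 0), Sum.inl (x 1)) at hu
      rw [Sym2.mem_iff] at hu
      rcases Cr_jn hE hC 1 with ⟨h1, h2⟩ | ⟨h1, h2⟩
      · rcases hu with rfl | rfl
        · left
          change x 0 = phi (x 0) w (pw X w (src (ℓ 1)))
          rw [h1, hq1]
        · right
          change x 1 = phi (x 0) w (pw X w (dst (ℓ 1)))
          rw [h2, hq _ (hC.xout 1)]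
      · rcases hu with rfl | rfl
        · right
          change x 0 = phi (x 0) w (pw X w (dst (ℓ 1)))
          rw [h2, hq1]
        · left
          change x 1 = phi (x 0) w (pw X w (src (ℓ 1)))
          rw [h1, hq _ (hC.xout 1)]

theorem s5 : S5 := by
  intro V E _ _ _ _ G src dst hE X y x ℓ hC k l l' hk hl hl' hkl hkl' hll' hGad
  obtain ⟨ρ, hρo, hρi, hρp, hρq, hρr, hρs, hTD⟩ := hGad
  have hpr : y 0 ≠ y l := fun h => hl (hC.yinj h).symm
  -- the legs in the new graph
  have leg : ∀ (j : Fin 4) (c : V), ρ (y j) = c →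
      Joins (fun o : Option E => o.elim (y 0) (ρ ∘ src)) (fun o : Option E => o.elim (y l) (ρ ∘ dst))
        (some (ℓ j)) c (x j) := by
    intro j c hc
    have hxj := hρo _ (hC.xout j)
    rcases Cr_jn hE hC j with ⟨h1, h2⟩ | ⟨h1, h2⟩
    · left
      exact ⟨by change ρ (src (ℓ j)) = c; rw [h1, hc], by change ρ (dst (ℓ j)) = x j; rw [h2, hxj]⟩
    · right
      exact ⟨by change ρ (src (ℓ j)) = x j; rw [h1, hxj], by change ρ (dst (ℓ j)) = c; rw [h2, hc]⟩
  refine ⟨fun hg => ?_, fun hg => ?_⟩
  · -- the tree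
    have hnw : ∀ (j : Fin 4) (i : Fin 2), ρ (y j) = (![y 0, y l] : Fin 2 → V) i →
        ∀ u : V ⊕ Fin 2, u ∈ s(Sum.inl (x j), Sum.inr i) →
        Sum.elim id (![y 0, y l] : Fin 2 → V) u =
          (fun o : Option E => o.elim (y 0) (ρ ∘ src)) (some (ℓ j)) ∨
        Sum.elim id (![y 0, y l] : Fin 2 → V) u =
          (fun o : Option E => o.elim (y l) (ρ ∘ dst)) (some (ℓ j)) := by
      intro j i hi u hu
      rw [Sym2.mem_iff] at hu
      rcases leg j _ hi with ⟨h1, h2⟩ | ⟨h1, h2⟩
      · rcases hu with rfl | rfl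
        · right
          rw [h2]; rfl
        · left
          rw [h1]; rfl
      · rcases hu with rfl | rfl
        · left
          rw [h1]; rfl
        · right
          rw [h2]; rfl
    have hoX : ∀ (j : Fin 4) (i : Fin 2) (v : V),
        (Sum.inl v : V ⊕ Fin 2) ∈ s(Sum.inl (x j), Sum.inr i) → v ∉ X := by
      intro j i v hv
      rw [Sym2.mem_iff] at hv
      rcases hv with h | h
      · rw [Sum.inl.inj h]; exact hC.xout j
      · simp at h
    refine twh_of G src dst hE X (gTree x k l l') hg V (Option E) _ _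
      (Sum.elim id (![y 0, y l] : Fin 2 → V)) hTD ?_ ?_ ?_ ?_
    · intro j v hv
      fin_cases j
      · exact hoX 0 0 v hv
      · exact hoX k 0 v hv
      · change Sum.inl v ∈ s(Sum.inr 0, Sum.inr 1) at hv
        rw [Sym2.mem_iff] at hv
        rcases hv with h | h <;> simp at h
      · exact hoX l 1 v hv
      · exact hoX l' 1 v hv
    · rintro (u | i) (v | i') hu hv huv
      · change u = v at huv
        rw [huv]
      · exfalso
        change u = (![y 0, y l] : Fin 2 → V) i' at huv
        apply hu u rfl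
        rw [huv]
        fin_cases i'
        · exact hC.yin 0
        · exact hC.yin l
      · exfalso
        change (![y 0, y l] : Fin 2 → V) i = v at huv
        apply hv v rfl
        rw [← huv]
        fin_cases i
        · exact hC.yin 0
        · exact hC.yin l
      · change (![y 0, y l] : Fin 2 → V) i = (![y 0, y l] : Fin 2 → V) i' at huv
        fin_cases i <;> fin_cases i'
        · rfl
        · exact absurd huv hpr
        · exact absurd huv.symm hpr
        · rfl
    · intro e h1 h2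
      refine ⟨some e, Or.inl ?_, Or.inr ?_⟩
      · change src e = ρ (src e)
        rw [hρo _ h1]
      · change dst e = ρ (dst e)
        rw [hρo _ h2]
    · intro j
      fin_cases j
      · exact ⟨some (ℓ 0), hnw 0 0 hρp⟩
      · exact ⟨some (ℓ k), hnw k 0 hρq⟩
      · refine ⟨none, fun u hu => ?_⟩
        change u ∈ s(Sum.inr 0, Sum.inr 1) at hu
        rw [Sym2.mem_iff] at hu
        rcases hu with rfl | rfl
        · exact Or.inl rfl
        · exact Or.inr rfl
      · exact ⟨some (ℓ l), hnw l 1 hρr⟩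
      · exact ⟨some (ℓ l'), hnw l' 1 hρs⟩
  · -- two edges
    have hx0p : x 0 ≠ y 0 := fun h => hC.xout 0 (h ▸ hC.yin 0)
    have hxlr : x l ≠ y l := fun h => hC.xout l (h ▸ hC.yin l)
    have hT1 := td_con (x 0) (y 0) (some (ℓ 0)) hTD hx0p (leg 0 _ hρp).symm
    have hp1 : ∀ v, v ≠ y 0 → phi (x 0) (y 0) v = v := fun v hv => if_neg hv
    have hp2 : ∀ v, v ≠ y l → phi (x l) (y l) v = v := fun v hv => if_neg hv
    have hXo : ∀ v, v ∉ X → ∀ j, v ≠ y j := fun v hv j h => hv (h ▸ hC.yin j)
    have hJ2 : Joins (phi (x 0) (y 0) ∘ fun o : Option E => o.elim (y 0) (ρ ∘ src))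
        (phi (x 0) (y 0) ∘ fun o : Option E => o.elim (y l) (ρ ∘ dst)) (some (ℓ l)) (x l) (y l) := by
      rcases leg l _ hρr with ⟨h1, h2⟩ | ⟨h1, h2⟩
      · right
        refine ⟨?_, ?_⟩
        · change phi (x 0) (y 0) ((fun o : Option E => o.elim (y 0) (ρ ∘ src)) (some (ℓ l))) = y l
          rw [h1, hp1 _ hpr.symm]
        · change phi (x 0) (y 0) ((fun o : Option E => o.elim (y l) (ρ ∘ dst)) (some (ℓ l))) = x l
          rw [h2, hp1 _ (hXo _ (hC.xout l) 0)]
      · left
        refine ⟨?_, ?_⟩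
        · change phi (x 0) (y 0) ((fun o : Option E => o.elim (y 0) (ρ ∘ src)) (some (ℓ l))) = x l
          rw [h1, hp1 _ (hXo _ (hC.xout l) 0)]
        · change phi (x 0) (y 0) ((fun o : Option E => o.elim (y l) (ρ ∘ dst)) (some (ℓ l))) = y l
          rw [h2, hp1 _ hpr.symm]
    have hT2 := td_con (x l) (y l) (some (ℓ l)) hT1 hxlr hJ2
    have hq : ∀ v, v ∉ X → phi (x l) (y l) (phi (x 0) (y 0) (ρ v)) = v := by
      intro v hv
      rw [hρo v hv, hp1 _ (hXo _ hv 0), hp2 _ (hXo _ hv l)]
    have hqp : phi (x l) (y l) (phi (x 0) (y 0) (y 0)) = x 0 := by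
      have h1 : phi (x 0) (y 0) (y 0) = x 0 := if_pos rfl
      rw [h1, hp2 _ (hXo _ (hC.xout 0) l)]
    have hqr : phi (x l) (y l) (phi (x 0) (y 0) (y l)) = x l := by
      rw [hp1 _ hpr.symm]
      exact if_pos rfl
    have hnw : ∀ (j : Fin 4) (c c' : V), ρ (y j) = c →
        phi (x l) (y l) (phi (x 0) (y 0) c) = c' →
        ∀ u : V ⊕ Fin 0, u ∈ s(Sum.inl c', Sum.inl (x j)) →
        Sum.elim id Fin.elim0 u = (phi (x l) (y l) ∘ (phi (x 0) (y 0) ∘
          fun o : Option E => o.elim (y 0) (ρ ∘ src))) (some (ℓ j)) ∨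
        Sum.elim id Fin.elim0 u = (phi (x l) (y l) ∘ (phi (x 0) (y 0) ∘
          fun o : Option E => o.elim (y l) (ρ ∘ dst))) (some (ℓ j)) := by
      intro j c c' hc hc' u hu
      rw [Sym2.mem_iff] at hu
      have hxj : phi (x l) (y l) (phi (x 0) (y 0) (x j)) = x j := by
        have := hq _ (hC.xout j)
        rwa [hρo _ (hC.xout j)] at this
      rcases leg j _ hc with ⟨h1, h2⟩ | ⟨h1, h2⟩
      · rcases hu with rfl | rfl
        · left
          change c' = phi (x l) (y l) (phi (x 0) (y 0)
            ((fun o : Option E => o.elim (y 0) (ρ ∘ src)) (some (ℓ j))))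
          rw [h1, hc']
        · right
          change x j = phi (x l) (y l) (phi (x 0) (y 0)
            ((fun o : Option E => o.elim (y l) (ρ ∘ dst)) (some (ℓ j))))
          rw [h2, hxj]
      · rcases hu with rfl | rfl
        · right
          change c' = phi (x l) (y l) (phi (x 0) (y 0)
            ((fun o : Option E => o.elim (y l) (ρ ∘ dst)) (some (ℓ j))))
          rw [h2, hc']
        · left
          change x j = phi (x l) (y l) (phi (x 0) (y 0)
            ((fun o : Option E => o.elim (y 0) (ρ ∘ src)) (some (ℓ j))))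
          rw [h1, hxj]
    refine twh_of G src dst hE X (gPar x k l l') hg V (Option E) _ _ (Sum.elim id Fin.elim0) hT2
      ?_ ?_ ?_ ?_
    · intro j v hv
      fin_cases j
      · change Sum.inl v ∈ s(Sum.inl (x 0), Sum.inl (x k)) at hv
        rw [Sym2.mem_iff] at hv
        rcases hv with h | h
        · rw [Sum.inl.inj h]; exact hC.xout 0
        · rw [Sum.inl.inj h]; exact hC.xout k
      · change Sum.inl v ∈ s(Sum.inl (x l), Sum.inl (x l')) at hv
        rw [Sym2.mem_iff] at hv
        rcases hv with h | h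
        · rw [Sum.inl.inj h]; exact hC.xout l
        · rw [Sum.inl.inj h]; exact hC.xout l'
    · rintro (u | i) (v | i') hu hv huv
      · change u = v at huv
        rw [huv]
      · exact i'.elim0
      · exact i.elim0
      · exact i.elim0
    · intro e h1 h2
      refine ⟨some e, Or.inl ?_, Or.inr ?_⟩
      · change src e = phi (x l) (y l) (phi (x 0) (y 0) (ρ (src e)))
        rw [hq _ h1]
      · change dst e = phi (x l) (y l) (phi (x 0) (y 0) (ρ (dst e)))
        rw [hq _ h2]
    · intro j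
      fin_cases j
      · exact ⟨some (ℓ k), hnw k _ _ hρq hqp⟩
      · exact ⟨some (ℓ l'), hnw l' _ _ hρs hqr⟩

end Pool.Agent.TH45.SC4
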