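import Pool.Agent.TH462.SC.Stm

set_option autoImplicit false
set_option linter.unusedSectionVars false
set_option linter.unusedVariables false

/-! # Small parts of a cubic graph that are left by few edges -/

namespace Pool.Agent.TH45.SC4

open Finset
open Pool.Agent.Helper347.Sab (MGraph dg IsCircuit IsCubic IsCDC)
open Pool.Agent.H10R3.SC (cut ins tou Cr sum_dg_le)
open Pool.Agent.TH499.TF (Joins Ad N3 Dbl G5 NoC HasTD Grow gadget)
open Pool.Agent.TH462.SC

section

variable {V E : Type} [Fintype V] [DecidableEq V] [Fintype E] [DecidableEq E]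

/-- the number of edges that leave a part which contains `m` given adjacencies -/
theorem cut_bound (G : MGraph V E) (src dst : E → V) (hG : IsCubic G)
    (hE : ∀ e, G.ends e = s(src e, dst e)) {N m : ℕ} (p q : Fin m → Fin N)
    (hpq : ∀ k k', ((p k = p k' ∧ q k = q k') ∨ (p k = q k' ∧ q k = p k')) → k = k')
    {l : Fin N → V} (hl : Function.Injective l)
    (ha : ∀ k, Ad src dst (l (p k)) (l (q k))) (X : Finset V) (hX : X = univ.image l) :
    (cut G univ X).card + 2 * m ≤ 3 * N := by
  obtain ⟨ε, hε, hJ⟩ := gadget p q hpq hl ha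
  have h1 := sum_dg_le G univ X
  have h3 : ∑ v ∈ X, dg G univ v = 3 * X.card := by
    rw [sum_congr rfl fun v _ => hG v, sum_const, smul_eq_mul, mul_comm]
  have h2 : X.card = N := by
    rw [hX, card_image_of_injective _ hl, card_univ, Fintype.card_fin]
  have hmem : ∀ i, l i ∈ X := fun i => by
    rw [hX]; exact mem_image_of_mem _ (mem_univ _)
  have h4 : m ≤ (ins G univ X).card := by
    have h5 : (univ.image ε) ⊆ ins G univ X := by
      intro e he
      obtain ⟨k, _, rfl⟩ := mem_image.1 he
      unfold ins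
      refine mem_filter.2 ⟨mem_univ _, ?_⟩
      intro u hu
      rw [hE, Sym2.mem_iff] at hu
      rcases hJ k with ⟨j1, j2⟩ | ⟨j1, j2⟩
      · rcases hu with rfl | rfl
        · rw [j1]; exact hmem _
        · rw [j2]; exact hmem _
      · rcases hu with rfl | rfl
        · rw [j1]; exact hmem _
        · rw [j2]; exact hmem _
    have h6 := card_le_card h5
    rwa [card_image_of_injective _ hε, card_univ, Fintype.card_fin] at h6
  omega

/-- a circuit of length four -/
def Sq (src dst : E → V) (a b c d : V) : Prop :=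
  [a, b, c, d].Nodup ∧ Ad src dst a b ∧ Ad src dst b c ∧ Ad src dst c d ∧ Ad src dst d a

omit [Fintype V] [DecidableEq V] [Fintype E] [DecidableEq E] in
theorem Sq.rot {src dst : E → V} {a b c d : V} (h : Sq src dst a b c d) : Sq src dst b c d a := by
  obtain ⟨h1, h2, h3, h4, h5⟩ := h
  refine ⟨?_, h3, h4, h5, h2⟩
  simp only [List.nodup_cons, List.mem_cons, List.not_mem_nil, or_false, not_or, List.nodup_nil,
    and_true, not_false_eq_true] at h1 ⊢
  tauto

omit [Fintype V] [DecidableEq V] [Fintype E] [DecidableEq E] in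
theorem Sq.refl {src dst : E → V} {a b c d : V} (h : Sq src dst a b c d) : Sq src dst a d c b := by
  obtain ⟨h1, h2, h3, h4, h5⟩ := h
  refine ⟨?_, h5.symm, h4.symm, h3.symm, h2.symm⟩
  simp only [List.nodup_cons, List.mem_cons, List.not_mem_nil, or_false, not_or, List.nodup_nil,
    and_true, not_false_eq_true] at h1 ⊢
  have := fun h : b = d => (h1.2.1.2) h
  tauto

theorem Sq.half (h3 : S3) {src dst : E → V} (hTD : HasTD 5 src dst) {a b c d : V}
    (h : Sq src dst a b c d) (X : Finset V) (hX : X = {a, b, c, d}) :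
    GadTD src dst X a b c d ∧ GadTD src dst X a b d c ∧ True := by
  obtain ⟨h1, h2, h3', h4, h5⟩ := h
  have hab := h2.1
  have hcd := h4.1
  simp only [List.nodup_cons, List.mem_cons, List.not_mem_nil, or_false, not_or, List.nodup_nil,
    and_true, not_false_eq_true] at h1
  obtain ⟨e1, he1⟩ := h2.2
  obtain ⟨e2, he2⟩ := h4.2
  have hA : Grow src dst ({a, b} : Finset V) :=
    Grow.add {b} a b e1 (Grow.one b) (by simpa using hab) (mem_singleton_self b) he1
  have hB : Grow src dst ({c, d} : Finset V) :=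
    Grow.add {d} c d e2 (Grow.one d) (by simpa using hcd) (mem_singleton_self d) he2
  have hdis : Disjoint ({a, b} : Finset V) {c, d} := by
    rw [disjoint_left]
    intro z hz hz'
    rw [mem_insert, mem_singleton] at hz hz'
    rcases hz with rfl | rfl <;> rcases hz' with h | h
    · exact h1.1.2.1 h
    · exact h1.1.2.2 h
    · exact h1.2.1.1 h
    · exact h1.2.1.2 h
  have hXu : X = {a, b} ∪ {c, d} := by
    rw [hX]; ext z; simp only [mem_insert, mem_singleton, mem_union]; tauto
  refine ⟨h3 V E src dst hTD {a, b} {c, d} X a b c d b c hA hB hdis hXu (by simp) (by simp)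
    (by simp) (by simp) (by simp) (by simp) h3',
    h3 V E src dst hTD {a, b} {c, d} X a b d c b c hA hB hdis hXu (by simp) (by simp)
    (by simp) (by simp) (by simp) (by simp) h3', trivial⟩

theorem Sq.allp (h3 : S3) (h4 : S4) {src dst : E → V} (hTD : HasTD 5 src dst) {a b c d : V}
    (h : Sq src dst a b c d) (X : Finset V) (hX : X = {a, b, c, d}) (q r s : V)
    (hnd : [a, q, r, s].Nodup) (hq : q ∈ X) (hr : r ∈ X) (hs : s ∈ X) :
    GadTD src dst X a q r s := by
  have hX' : X = {a, d, c, b} := by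
    rw [hX]; ext z; simp only [mem_insert, mem_singleton]; tauto
  obtain ⟨k1, k2, -⟩ := h.half h3 hTD X hX
  obtain ⟨k3, k4, -⟩ := h.refl.half h3 hTD X hX'
  have k5 : GadTD src dst X a c b d := by
    rw [hX]
    exact h4 V E src dst hTD a b c d h.1 h.2.1 h.2.2.1 h.2.2.2.1 h.2.2.2.2
  have k6 : GadTD src dst X a c d b := by
    rw [hX']
    exact h4 V E src dst hTD a d c b h.refl.1 h.refl.2.1 h.refl.2.2.1 h.refl.2.2.2.1
      h.refl.2.2.2.2
  rw [hX] at hq hr hs
  simp only [List.nodup_cons, List.mem_cons, List.not_mem_nil, or_false, not_or, List.nodup_nil,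
    and_true, not_false_eq_true] at hnd
  simp only [mem_insert, mem_singleton] at hq hr hs
  obtain ⟨⟨n1, n2, n3⟩, ⟨n4, n5⟩, n6⟩ := hnd
  rcases hq with rfl | rfl | rfl | rfl
  · exact absurd rfl n1
  · rcases hr with rfl | rfl | rfl | rfl
    · exact absurd rfl n2
    · exact absurd rfl n4
    · rcases hs with rfl | rfl | rfl | rfl
      · exact absurd rfl n3
      · exact absurd rfl n5
      · exact absurd rfl n6
      · exact k1
    · rcases hs with rfl | rfl | rfl | rfl
      · exact absurd rfl n3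
      · exact absurd rfl n5
      · exact k2
      · exact absurd rfl n6
  · rcases hr with rfl | rfl | rfl | rfl
    · exact absurd rfl n2
    · rcases hs with rfl | rfl | rfl | rfl
      · exact absurd rfl n3
      · exact absurd rfl n6
      · exact absurd rfl n5
      · exact k5
    · exact absurd rfl n4
    · rcases hs with rfl | rfl | rfl | rfl
      · exact absurd rfl n3
      · exact k6
      · exact absurd rfl n5
      · exact absurd rfl n6
  · rcases hr with rfl | rfl | rfl | rfl
    · exact absurd rfl n2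
    · rcases hs with rfl | rfl | rfl | rfl
      · exact absurd rfl n3
      · exact absurd rfl n6
      · exact k4
      · exact absurd rfl n5
    · rcases hs with rfl | rfl | rfl | rfl
      · exact absurd rfl n3
      · exact k3
      · exact absurd rfl n6
      · exact absurd rfl n5
    · exact absurd rfl n4

theorem Sq.rich (h3 : S3) (h4 : S4) {src dst : E → V} (hTD : HasTD 5 src dst) {a b c d : V}
    (h : Sq src dst a b c d) : Rich src dst {a, b, c, d} := by
  intro p q r s hnd hall
  have hp := (hall p (by simp)).1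
  have hq := (hall q (by simp)).1
  have hr := (hall r (by simp)).1
  have hs := (hall s (by simp)).1
  have hp' := hp
  rw [mem_insert, mem_insert, mem_insert, mem_singleton] at hp'
  rcases hp' with h0 | h0 | h0 | h0
  · subst h0
    exact h.allp h3 h4 hTD _ rfl q r s hnd hq hr hs
  · subst h0
    refine h.rot.allp h3 h4 hTD _ ?_ q r s hnd hq hr hs
    ext z; simp only [mem_insert, mem_singleton]; tauto
  · subst h0
    refine h.rot.rot.allp h3 h4 hTD _ ?_ q r s hnd hq hr hs
    ext z; simp only [mem_insert, mem_singleton]; tauto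
  · subst h0
    refine h.rot.rot.rot.allp h3 h4 hTD _ ?_ q r s hnd hq hr hs
    ext z; simp only [mem_insert, mem_singleton]; tauto

end

theorem s7d (h3 : S3) (h4 : S4) : S7d := by
  intro V E _ _ _ _ G src dst hG hE hTD v0 v1 v2 v3 hnd a1 a2 a3 a4
  refine ⟨?_, Sq.rich h3 h4 hTD ⟨hnd, a1, a2, a3, a4⟩⟩
  have hinj : Function.Injective (![v0, v1, v2, v3] : Fin 4 → V) := by
    rw [← List.nodup_ofFn]; exact hnd
  have := cut_bound G src dst hG hE (N := 4) (m := 4) ![0, 1, 2, 3] ![1, 2, 3, 0] (by decide) hinj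
    (by intro k; fin_cases k <;> assumption) {v0, v1, v2, v3} (by
      ext z
      simp only [mem_insert, mem_singleton, mem_image, mem_univ, true_and]
      constructor
      · rintro (rfl | rfl | rfl | rfl)
        exacts [⟨0, rfl⟩, ⟨1, rfl⟩, ⟨2, rfl⟩, ⟨3, rfl⟩]
      · rintro ⟨i, rfl⟩
        fin_cases i <;> simp)
  omega

theorem s7c : S7c := by
  intro V E _ _ _ _ G src dst hG hE
  refine ⟨?_, ?_, ?_⟩
  · intro x1 u a y1 n c x2 b y2 x3 y3 hnd h1 h2 h3
    have hinj : Function.Injective (![x1, u, a, y1, n, c, x2, b, y2, x3, y3] : Fin 11 → V) := by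
      rw [← List.nodup_ofFn]; exact hnd
    have := cut_bound G src dst hG hE (N := 11) (m := 15)
      ![0, 0, 0, 3, 3, 6, 6, 6, 8, 8, 9, 9, 9, 10, 10]
      ![1, 2, 3, 4, 5, 1, 7, 8, 4, 2, 1, 5, 10, 4, 7] (by decide) hinj (by
        intro k; fin_cases k
        · exact (h1.1 _).mpr (Or.inr (Or.inl rfl))
        · exact (h1.1 _).mpr (Or.inr (Or.inr rfl))
        · exact (h1.1 _).mpr (Or.inl rfl)
        · exact (h1.2 _).mpr (Or.inr (Or.inl rfl))
        · exact (h1.2 _).mpr (Or.inr (Or.inr rfl))
        · exact (h2.1 _).mpr (Or.inr (Or.inl rfl))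
        · exact (h2.1 _).mpr (Or.inr (Or.inr rfl))
        · exact (h2.1 _).mpr (Or.inl rfl)
        · exact (h2.2 _).mpr (Or.inr (Or.inl rfl))
        · exact (h2.2 _).mpr (Or.inr (Or.inr rfl))
        · exact (h3.1 _).mpr (Or.inr (Or.inl rfl))
        · exact (h3.1 _).mpr (Or.inr (Or.inr rfl))
        · exact (h3.1 _).mpr (Or.inl rfl)
        · exact (h3.2 _).mpr (Or.inr (Or.inl rfl))
        · exact (h3.2 _).mpr (Or.inr (Or.inr rfl))) {x1, u, a, y1, n, c, x2, b, y2, x3, y3} (by
      ext z
      simp only [mem_insert, mem_singleton, mem_image, mem_univ, true_and]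
      constructor
      · rintro (rfl | rfl | rfl | rfl | rfl | rfl | rfl | rfl | rfl | rfl | rfl)
        exacts [⟨0, rfl⟩, ⟨1, rfl⟩, ⟨2, rfl⟩, ⟨3, rfl⟩, ⟨4, rfl⟩, ⟨5, rfl⟩, ⟨6, rfl⟩, ⟨7, rfl⟩,
          ⟨8, rfl⟩, ⟨9, rfl⟩, ⟨10, rfl⟩]
      · rintro ⟨i, rfl⟩
        fin_cases i <;> simp)
    omega
  · intro x1 u b y1 a n x2 c y2 x3 y3 hnd h1 h2 h3
    have hinj : Function.Injective (![x1, u, b, y1, a, n, x2, c, y2, x3, y3] : Fin 11 → V) := by
      rw [← List.nodup_ofFn]; exact hnd
    have := cut_bound G src dst hG hE (N := 11) (m := 15)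
      ![0, 0, 0, 3, 3, 6, 6, 6, 8, 8, 9, 9, 9, 10, 10]
      ![1, 2, 3, 4, 5, 1, 7, 8, 4, 2, 1, 4, 10, 5, 7] (by decide) hinj (by
        intro k; fin_cases k
        · exact (h1.1 _).mpr (Or.inr (Or.inl rfl))
        · exact (h1.1 _).mpr (Or.inr (Or.inr rfl))
        · exact (h1.1 _).mpr (Or.inl rfl)
        · exact (h1.2 _).mpr (Or.inr (Or.inl rfl))
        · exact (h1.2 _).mpr (Or.inr (Or.inr rfl))
        · exact (h2.1 _).mpr (Or.inr (Or.inl rfl))
        · exact (h2.1 _).mpr (Or.inr (Or.inr rfl))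
        · exact (h2.1 _).mpr (Or.inl rfl)
        · exact (h2.2 _).mpr (Or.inr (Or.inl rfl))
        · exact (h2.2 _).mpr (Or.inr (Or.inr rfl))
        · exact (h3.1 _).mpr (Or.inr (Or.inl rfl))
        · exact (h3.1 _).mpr (Or.inr (Or.inr rfl))
        · exact (h3.1 _).mpr (Or.inl rfl)
        · exact (h3.2 _).mpr (Or.inr (Or.inl rfl))
        · exact (h3.2 _).mpr (Or.inr (Or.inr rfl))) {x1, u, b, y1, a, n, x2, c, y2, x3, y3} (by
      ext z
      simp only [mem_insert, mem_singleton, mem_image, mem_univ, true_and]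
      constructor
      · rintro (rfl | rfl | rfl | rfl | rfl | rfl | rfl | rfl | rfl | rfl | rfl)
        exacts [⟨0, rfl⟩, ⟨1, rfl⟩, ⟨2, rfl⟩, ⟨3, rfl⟩, ⟨4, rfl⟩, ⟨5, rfl⟩, ⟨6, rfl⟩, ⟨7, rfl⟩,
          ⟨8, rfl⟩, ⟨9, rfl⟩, ⟨10, rfl⟩]
      · rintro ⟨i, rfl⟩
        fin_cases i <;> simp)
    omega
  · intro x y z a1 a2 a3
    have hinj : Function.Injective (![x, y, z] : Fin 3 → V) := by
      rw [← List.nodup_ofFn]
      have n1 := a1.1
      have n2 := a2.1
      have n3 := a3.1
      simp [n1, n2, Ne.symm n3]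
    have := cut_bound G src dst hG hE (N := 3) (m := 3) ![0, 1, 2] ![1, 2, 0] (by decide) hinj
      (by intro k; fin_cases k <;> assumption) {x, y, z} (by
        ext w
        simp only [mem_insert, mem_singleton, mem_image, mem_univ, true_and]
        constructor
        · rintro (rfl | rfl | rfl)
          exacts [⟨0, rfl⟩, ⟨1, rfl⟩, ⟨2, rfl⟩]
        · rintro ⟨i, rfl⟩
          fin_cases i <;> simp)
    omega

end Pool.Agent.TH45.SC4
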